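import Pool.Agent.H6.FN.Targets
import Pool.Agent.H6.FC.Lem

set_option autoImplicit false

/-! # FI.T_CNA: alternating groups of large degree (board fcn_modules, row CNA) -/

open scoped Classical

namespace Pool.Agent.H60.FCN

open FI

theorem alt_nab (m : ℕ) (hm : 4 ≤ m) : ∃ a b : alternatingGroup (Fin m), a * b ≠ b * a := by
  set p0 : Fin m := ⟨0, by omega⟩ with h0
  set p1 : Fin m := ⟨1, by omega⟩ with h1
  set p2 : Fin m := ⟨2, by omega⟩ with h2
  set p3 : Fin m := ⟨3, by omega⟩ with h3
  have n01 : p0 ≠ p1 := by rw [h0, h1]; simp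
  have n02 : p0 ≠ p2 := by rw [h0, h2]; simp
  have n03 : p0 ≠ p3 := by rw [h0, h3]; simp
  have n12 : p1 ≠ p2 := by rw [h1, h2]; simp
  have n13 : p1 ≠ p3 := by rw [h1, h3]; simp
  have n23 : p2 ≠ p3 := by rw [h2, h3]; simp
  have ha : Equiv.swap p0 p1 * Equiv.swap p0 p2 ∈ alternatingGroup (Fin m) := by
    rw [Equiv.Perm.mem_alternatingGroup, map_mul, Equiv.Perm.sign_swap n01,
      Equiv.Perm.sign_swap n02]
    norm_num
  have hb : Equiv.swap p0 p1 * Equiv.swap p0 p3 ∈ alternatingGroup (Fin m) := by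
    rw [Equiv.Perm.mem_alternatingGroup, map_mul, Equiv.Perm.sign_swap n01,
      Equiv.Perm.sign_swap n03]
    norm_num
  refine ⟨⟨_, ha⟩, ⟨_, hb⟩, fun h => ?_⟩
  have h4 := congrArg (fun g : alternatingGroup (Fin m) => (g : Equiv.Perm (Fin m)) p3) h
  simp only [Subgroup.coe_mul, Equiv.Perm.mul_apply] at h4
  rw [Equiv.swap_apply_right, Equiv.swap_apply_left, Equiv.swap_apply_of_ne_of_ne n01.symm n12,
    Equiv.swap_apply_right, Equiv.swap_apply_of_ne_of_ne n03.symm n23.symm,
    Equiv.swap_apply_of_ne_of_ne n03.symm n13.symm,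
    Equiv.swap_apply_right, Equiv.swap_apply_left] at h4
  exact n01 h4

theorem kc_le_of_equiv {S A : Type} [Group S] [Group A] [Finite A] (e : S ≃* A) :
    kc S ≤ kc A := by
  have h := ConjClasses.map_surjective (f := e.symm.toMonoidHom) e.symm.surjective
  haveI : Finite (ConjClasses A) := Quotient.finite _
  exact Nat.card_le_card_of_surjective _ h

theorem pf_CNA (AUA : T_AUA) (NAM : T_NAM) (KSN : T_KSN) (KSB : T_KSB) : T_CNA := by
  intro e he S _ hS
  obtain ⟨m, hm, ⟨E⟩⟩ := hS
  haveI hsimA : IsSimpleGroup (alternatingGroup (Fin m)) := by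
    apply alternatingGroup.isSimpleGroup
    rw [Nat.card_eq_fintype_card, Fintype.card_fin]
    omega
  haveI : Nontrivial (Fin m) := Fin.nontrivial_iff_two_le.2 (by omega)
  haveI : Finite S := Finite.of_equiv _ E.symm.toEquiv
  refine ⟨E.isSimpleGroup, ?_, ?_⟩
  · obtain ⟨a, b, hab⟩ := alt_nab m (by omega)
    refine ⟨E.symm a, E.symm b, fun h => hab ?_⟩
    rw [← map_mul, ← map_mul] at h
    exact E.symm.injective h
  · have h1 : kc S ≤ 2 ^ m := by
      calc kc S ≤ kc (alternatingGroup (Fin m)) := kc_le_of_equiv E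
        _ ≤ (alternatingGroup (Fin m)).index * kc (Equiv.Perm (Fin m)) := KSB _ _
        _ ≤ 2 * 2 ^ (m - 1) := by
          rw [alternatingGroup.index_eq_two]
          have := KSN (Fin m)
          rw [Nat.card_eq_fintype_card (α := Fin m), Fintype.card_fin] at this
          exact Nat.mul_le_mul_left 2 this
        _ = 2 ^ m := by
          rw [← pow_succ']
          congr 1
          omega
    have h2 : Nat.card (MulAut S) ≤ m.factorial := by
      rw [Nat.card_congr (MulAut.congr E).toEquiv]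
      exact AUA m (by omega)
    have h3 : (Nat.card S : ℝ) = (m.factorial : ℝ) / 2 := by
      have h4 : 2 * Nat.card S = m.factorial := by
        rw [Nat.card_congr E.toEquiv, two_mul_nat_card_alternatingGroup, Nat.card_perm,
          Nat.card_eq_fintype_card (α := Fin m), Fintype.card_fin]
      rw [← h4]
      push_cast
      ring
    rw [h3]
    refine le_trans ?_ (NAM e he m hm)
    have k1 : (kc S : ℝ) ≤ 2 ^ m := by exact_mod_cast h1
    have k2 : (Nat.card (MulAut S) : ℝ) ≤ (m.factorial : ℝ) := by exact_mod_cast h2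
    have k0 : (0 : ℝ) ≤ Real.exp 500 := (Real.exp_pos _).le
    exact mul_le_mul (mul_le_mul_of_nonneg_left k1 k0) k2 (Nat.cast_nonneg _) (by positivity)

end Pool.Agent.H60.FCN
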