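import Pool.Agent.H6.FN.TargetsG

set_option autoImplicit false

/-! # FI.T_DIA: the diameter of a graph (board fcn_modules, row DIA) -/

open scoped Classical

namespace Pool.Agent.H60.FCN

open FI

theorem exists_point {α : Type} (X : SimpleGraph α) (hX : X.Connected) (u v : α) (i : ℕ)
    (hi : i ≤ X.dist u v) : ∃ w, X.dist u w = i := by
  obtain ⟨p, hp⟩ := hX.exists_walk_length_eq_dist u v
  refine ⟨p.getVert i, ?_⟩
  have h1 : X.dist u (p.getVert i) ≤ i := by
    have := SimpleGraph.dist_le (p.take i)
    have h2 := p.take_length i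
    omega
  have h3 : X.dist (p.getVert i) v ≤ X.dist u v - i := by
    have := SimpleGraph.dist_le (p.drop i)
    have h2 := p.drop_length i
    omega
  have h4 : X.dist u v ≤ X.dist u (p.getVert i) + X.dist (p.getVert i) v := hX.dist_triangle
  omega

theorem pf_DIA : T_DIA := by
  intro α _ X hX a ha u v
  haveI : Fintype α := Fintype.ofFinite α
  set l := X.dist u v with hl
  set q := l / 3 with hq
  have hpt : ∀ i : ℕ, ∃ w, i ≤ l → X.dist u w = i := by
    intro i
    by_cases hi : i ≤ l
    · obtain ⟨w, hw⟩ := exists_point X hX u v i hi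
      exact ⟨w, fun _ => hw⟩
    · exact ⟨u, fun h => absurd h hi⟩
  choose w hw using hpt
  set N : ℕ → Finset α := fun i => insert (w (3 * i)) ((X.neighborSet (w (3 * i))).toFinset)
    with hN
  have hcard : ∀ i, a + 1 ≤ (N i).card := by
    intro i
    have h1 : w (3 * i) ∉ (X.neighborSet (w (3 * i))).toFinset := by
      rw [Set.mem_toFinset, SimpleGraph.mem_neighborSet]
      exact X.irrefl
    rw [hN]
    simp only
    rw [Finset.card_insert_of_notMem h1]
    have := ha (w (3 * i))
    rw [Set.ncard_eq_toFinset_card'] at this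
    omega
  have hd1 : ∀ i, ∀ z ∈ N i, X.dist (w (3 * i)) z ≤ 1 := by
    intro i z hz
    rw [hN] at hz
    simp only [Finset.mem_insert, Set.mem_toFinset, SimpleGraph.mem_neighborSet] at hz
    rcases hz with rfl | hz
    · rw [SimpleGraph.dist_self]; omega
    · exact le_of_eq (SimpleGraph.dist_eq_one_iff_adj.2 hz)
  have hdisj : Set.PairwiseDisjoint (↑(Finset.range (q + 1)) : Set ℕ) N := by
    intro i hi j hj hij
    rw [Function.onFun, Finset.disjoint_left]
    intro z hz1 hz2
    have hi' : i ≤ q := by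
      have := Finset.mem_range.1 (Finset.mem_coe.1 hi)
      omega
    have hj' : j ≤ q := by
      have := Finset.mem_range.1 (Finset.mem_coe.1 hj)
      omega
    have e1 : X.dist u (w (3 * i)) = 3 * i := hw (3 * i) (by omega)
    have e2 : X.dist u (w (3 * j)) = 3 * j := hw (3 * j) (by omega)
    have t1 := hd1 i z hz1
    have t2 := hd1 j z hz2
    have t3 : X.dist u (w (3 * i)) ≤ X.dist u (w (3 * j)) + X.dist (w (3 * j)) (w (3 * i)) :=
      hX.dist_triangle
    have t4 : X.dist u (w (3 * j)) ≤ X.dist u (w (3 * i)) + X.dist (w (3 * i)) (w (3 * j)) :=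
      hX.dist_triangle
    have t5 : X.dist (w (3 * i)) (w (3 * j)) ≤ X.dist (w (3 * i)) z + X.dist z (w (3 * j)) :=
      hX.dist_triangle
    have t6 : X.dist z (w (3 * j)) = X.dist (w (3 * j)) z := SimpleGraph.dist_comm
    have t7 : X.dist (w (3 * j)) (w (3 * i)) = X.dist (w (3 * i)) (w (3 * j)) :=
      SimpleGraph.dist_comm
    omega
  have htot : (q + 1) * (a + 1) ≤ Nat.card α := by
    have h1 : ((Finset.range (q + 1)).biUnion N).card = ∑ i ∈ Finset.range (q + 1), (N i).card :=
      Finset.card_biUnion hdisj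
    have h2 : ∑ i ∈ Finset.range (q + 1), (a + 1) ≤ ∑ i ∈ Finset.range (q + 1), (N i).card :=
      Finset.sum_le_sum fun i _ => hcard i
    rw [Finset.sum_const, Finset.card_range, smul_eq_mul] at h2
    rw [Nat.card_eq_fintype_card]
    calc (q + 1) * (a + 1) ≤ _ := h2
      _ = _ := h1.symm
      _ ≤ Fintype.card α := Finset.card_le_univ _
  calc l * (a + 1) ≤ (3 * (q + 1)) * (a + 1) := Nat.mul_le_mul_right _ (by omega)
    _ = 3 * ((q + 1) * (a + 1)) := by ring
    _ ≤ 3 * Nat.card α := Nat.mul_le_mul_left _ htot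

end Pool.Agent.H60.FCN
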