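import Pool.Agent.H6.FN.TargetsG

set_option autoImplicit false

/-! # FI.T_UPB: the sets `df` of a uniprimitive group (board fcn_modules, row UPB) -/

open scoped Classical

namespace Pool.Agent.H60.FCN

open FI MulAction

theorem pf_UPB (UD2 : T_UD2) (UD3 : T_UD3) (UD4 : T_UD4) (UD5 : T_UD5) : T_UPB := by
  intro G α _ _ _ hprim h2 x y hxy
  haveI : Fintype α := Fintype.ofFinite α
  haveI : Nonempty α := ⟨x⟩
  set n := Nat.card α with hn
  have hn2 : 2 ≤ n := by
    rw [hn, Nat.card_eq_fintype_card]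
    exact Fintype.one_lt_card_iff.2 ⟨x, y, hxy⟩
  -- the maximal length of a suborbit
  obtain ⟨p, -, hp⟩ := Finset.exists_mem_eq_sup (Finset.univ : Finset (α × α))
    ⟨(x, x), Finset.mem_univ _⟩ (fun p : α × α => (orbit (stabilizer G p.1) p.2).ncard)
  set m := (Finset.univ : Finset (α × α)).sup
    (fun p : α × α => (orbit (stabilizer G p.1) p.2).ncard) with hm
  have hmax : ∀ a z : α, (orbit (stabilizer G a) z).ncard ≤ m := fun a z =>
    Finset.le_sup (f := fun p : α × α => (orbit (stabilizer G p.1) p.2).ncard)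
      (Finset.mem_univ (a, z))
  have h5 : n ≤ (n - m) ^ 2 := by
    have := UD5 G α hprim h2 p.1 p.2
    rw [hp]
    exact this
  have hn3 : 3 ≤ n := by
    have h0 : 1 ≤ (orbit (stabilizer G x) x).ncard := by
      rw [Nat.one_le_iff_ne_zero, Ne, Set.ncard_eq_zero (Set.toFinite _)]
      exact (nonempty_orbit x).ne_empty
    have h1 := hmax x x
    by_contra h3
    have h4 : n = 2 := by omega
    have h6 : n - m ≤ 1 := by omega
    have h7 : (n - m) ^ 2 ≤ 1 := by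
      calc (n - m) ^ 2 ≤ 1 ^ 2 := Nat.pow_le_pow_left h6 2
        _ = 1 := one_pow 2
    omega
  obtain ⟨u, v, huv⟩ := UD2 G α m hmax
  have h3 := UD3 G α hprim x y hxy
  have h4 := UD4 G α hprim x y hxy u v
  set a := (orbit (stabilizer G x) y).ncard with ha
  set D := (df G x y).ncard with hD
  set E := (df G u v).ncard with hE
  set s := n - m with hs
  have hsE : s ≤ E := by omega
  have hnR : (3 : ℝ) ≤ n := by exact_mod_cast hn3
  have r3 : (n : ℝ) ≤ 2 * a * D + 1 := by exact_mod_cast h3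
  have r4 : (E : ℝ) * (a + 1) ≤ 3 * n * D := by exact_mod_cast h4
  have r5 : (n : ℝ) ≤ (s : ℝ) ^ 2 := by exact_mod_cast h5
  have rs : (s : ℝ) ≤ E := by exact_mod_cast hsE
  have hs0 : (0 : ℝ) ≤ s := Nat.cast_nonneg _
  have ha0 : (0 : ℝ) ≤ a := Nat.cast_nonneg _
  have hD0 : (0 : ℝ) ≤ D := Nat.cast_nonneg _
  have hapos : (0 : ℝ) < a := by
    rcases ha0.lt_or_eq with h | h
    · exact h
    · rw [← h] at r3
      linarith
  -- (n - 1) s a ≤ 6 a n D ^ 2
  have k1 : (n - 1 : ℝ) * (s * a) ≤ 6 * a * n * D ^ 2 := by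
    have e1 : (s : ℝ) * a ≤ 3 * n * D := by
      calc (s : ℝ) * a ≤ E * (a + 1) := by
            exact mul_le_mul rs (by linarith) ha0 (Nat.cast_nonneg _)
        _ ≤ _ := r4
    have e2 : (n - 1 : ℝ) ≤ 2 * a * D := by linarith
    calc (n - 1 : ℝ) * (s * a) ≤ (2 * a * D) * (3 * n * D) :=
          mul_le_mul e2 e1 (by positivity) (by positivity)
      _ = _ := by ring
  have k2 : (n - 1 : ℝ) * s ≤ 6 * n * D ^ 2 := by
    have h8 : a * ((n - 1 : ℝ) * s) ≤ a * (6 * n * D ^ 2) := by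
      calc a * ((n - 1 : ℝ) * s) = (n - 1 : ℝ) * (s * a) := by ring
        _ ≤ 6 * a * n * D ^ 2 := k1
        _ = a * (6 * n * D ^ 2) := by ring
    exact le_of_mul_le_mul_left h8 hapos
  have k3 : (s : ℝ) ≤ 9 * D ^ 2 := by
    have e1 : (2 / 3 : ℝ) * n * s ≤ (n - 1 : ℝ) * s := by
      apply mul_le_mul_of_nonneg_right _ hs0
      linarith
    have e2 : (n : ℝ) * ((2 / 3 : ℝ) * s) ≤ n * (6 * D ^ 2) := by
      calc (n : ℝ) * ((2 / 3 : ℝ) * s) = (2 / 3 : ℝ) * n * s := by ring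
        _ ≤ (n - 1 : ℝ) * s := e1
        _ ≤ 6 * n * D ^ 2 := k2
        _ = n * (6 * D ^ 2) := by ring
    have e3 := le_of_mul_le_mul_left e2 (by linarith : (0 : ℝ) < n)
    linarith
  -- the fourth root
  set r := (n : ℝ) ^ ((1 : ℝ) / 4) with hr
  have hr0 : 0 ≤ r := Real.rpow_nonneg (Nat.cast_nonneg _) _
  have hr4 : r ^ 4 = n := by
    rw [hr, ← Real.rpow_natCast, ← Real.rpow_mul (Nat.cast_nonneg _)]
    norm_num
  have k4 : r ^ 2 ≤ s := by
    have h8 : (r ^ 2) ^ 2 = r ^ 4 := by ring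
    have h9 : (r ^ 2) ^ 2 ≤ (s : ℝ) ^ 2 := by rw [h8, hr4]; exact r5
    exact le_of_sq_le_sq h9 hs0
  have k5 : r ^ 2 ≤ (3 * (D : ℝ)) ^ 2 := by
    calc r ^ 2 ≤ s := k4
      _ ≤ 9 * D ^ 2 := k3
      _ = _ := by ring
  have k6 : r ≤ 3 * D := le_of_sq_le_sq k5 (by positivity)
  linarith

end Pool.Agent.H60.FCN
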