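import Pool.Agent.H6.FN.TargetsG

set_option autoImplicit false

/-! # FI.T_CMS: the support of a commutator (board fcn_modules, row CMS) -/

namespace Pool.Agent.H60.FCN

open Equiv Equiv.Perm FI

theorem ais {α : Type} (f : Equiv.Perm α) (x : α) : f (f⁻¹ x) = x := f.apply_symm_apply x

theorem ias {α : Type} (f : Equiv.Perm α) (x : α) : f⁻¹ (f x) = x := f.symm_apply_apply x

theorem supp_comm {α : Type} [Fintype α] [DecidableEq α] (g h : Equiv.Perm α) (p : α)
    (hp : (g * h * g⁻¹ * h⁻¹) p ≠ p) :
    (p ∈ g.support ∧ p ∈ h.support) ∨ (g⁻¹ p ∈ g.support ∧ g⁻¹ p ∈ h.support) ∨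
      (h⁻¹ p ∈ g.support ∧ h⁻¹ p ∈ h.support) := by
  by_contra hcon
  push Not at hcon
  obtain ⟨h1, h2, h3⟩ := hcon
  apply hp
  simp only [Perm.mul_apply]
  simp only [mem_support, ne_eq] at h1 h2 h3
  by_cases hB : h p = p
  · have hB' : h⁻¹ p = p := by rw [Perm.inv_eq_iff_eq]; exact hB.symm
    rw [hB']
    by_cases hA : g p = p
    · have hA' : g⁻¹ p = p := by rw [Perm.inv_eq_iff_eq]; exact hA.symm
      rw [hA', hB, hA]
    · have h4 : ¬ g (g⁻¹ p) = g⁻¹ p := by
        intro h5
        apply hA
        rw [ais] at h5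
        rw [← Perm.eq_inv_iff_eq]
        exact h5
      have h6 := h2 h4
      rw [not_not] at h6
      rw [h6, ais]
  · have hA : g p = p := by
      by_contra hA
      exact h1 hA hB
    have h4 : ¬ h (h⁻¹ p) = h⁻¹ p := by
      intro h5
      apply hB
      rw [ais] at h5
      rw [← Perm.eq_inv_iff_eq]
      exact h5
    have h5 : g (h⁻¹ p) = h⁻¹ p := by
      by_contra h6
      exact (h3 h6) h4
    have h6 : g⁻¹ (h⁻¹ p) = h⁻¹ p := by rw [Perm.inv_eq_iff_eq]; exact h5.symm
    rw [h6, ais, hA]

theorem pf_CMS : T_CMS := by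
  intro α _ _ g h
  set c := g * h * g⁻¹ * h⁻¹ with hc
  set I := g.support ∩ h.support with hI
  have hsub : c.support ⊆ I ∪ (I.image g ∪ I.image h) := by
    intro p hp
    rw [mem_support] at hp
    rcases supp_comm g h p hp with ⟨h1, h2⟩ | ⟨h1, h2⟩ | ⟨h1, h2⟩
    · exact Finset.mem_union_left _ (Finset.mem_inter.2 ⟨h1, h2⟩)
    · refine Finset.mem_union_right _ (Finset.mem_union_left _ ?_)
      exact Finset.mem_image.2 ⟨g⁻¹ p, Finset.mem_inter.2 ⟨h1, h2⟩, ais _ _⟩
    · refine Finset.mem_union_right _ (Finset.mem_union_right _ ?_)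
      exact Finset.mem_image.2 ⟨h⁻¹ p, Finset.mem_inter.2 ⟨h1, h2⟩, ais _ _⟩
  have hcard : c.support.card ≤ 3 * I.card := by
    have h1 := Finset.card_le_card hsub
    have h2 := Finset.card_union_le I (I.image g ∪ I.image h)
    have h3 := Finset.card_union_le (I.image g) (I.image h)
    have h4 : (I.image g).card ≤ I.card := Finset.card_image_le
    have h5 : (I.image h).card ≤ I.card := Finset.card_image_le
    omega
  refine ⟨hcard, fun h1 => ?_⟩
  obtain ⟨p, hp⟩ := Finset.card_eq_one.1 h1
  have hpI : p ∈ I := by rw [hp]; exact Finset.mem_singleton_self p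
  have hun : ∀ q, q ∈ g.support → q ∈ h.support → q = p := by
    intro q h1 h2
    have : q ∈ I := Finset.mem_inter.2 ⟨h1, h2⟩
    rw [hp] at this
    exact Finset.mem_singleton.1 this
  have hpg : p ∈ g.support := (Finset.mem_inter.1 hpI).1
  have hph : p ∈ h.support := (Finset.mem_inter.1 hpI).2
  have hgp : g p ≠ p := mem_support.1 hpg
  have hhp : h p ≠ p := mem_support.1 hph
  have e1 : h (g p) = g p := by
    by_contra h2
    exact hgp (hun _ (apply_mem_support.2 hpg) (mem_support.2 h2))
  have e2 : g (h p) = h p := by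
    by_contra h2
    exact hhp (hun _ (mem_support.2 h2) (apply_mem_support.2 hph))
  have e1' : h⁻¹ (g p) = g p := by rw [Perm.inv_eq_iff_eq]; exact e1.symm
  have hne : g p ≠ h p := by
    intro h2
    have : h (g p) = h p := by rw [e1, h2]
    exact hgp (h.injective this)
  have c1 : c (g p) = h p := by
    rw [hc]
    simp only [Perm.mul_apply]
    rw [e1', ias, e2]
  have hr : g⁻¹ p ∈ g.support := by
    rw [mem_support, ais]
    intro h2
    apply hgp
    rw [← Perm.eq_inv_iff_eq]
    exact h2
  have hrp : g⁻¹ p ≠ p := by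
    intro h2
    apply hgp
    have := ais g p
    rw [h2] at this
    exact this
  have e3 : h (g⁻¹ p) = g⁻¹ p := by
    by_contra h2
    exact hrp (hun _ hr (mem_support.2 h2))
  have c2 : c (h p) = p := by
    rw [hc]
    simp only [Perm.mul_apply]
    rw [ias, e3, ais]
  have hle : c.support.card ≤ 3 := by rw [h1] at hcard; omega
  have hge : 3 ≤ c.support.card := by
    have hs : ({g p, h p, p} : Finset α) ⊆ c.support := by
      intro q hq
      simp only [Finset.mem_insert, Finset.mem_singleton] at hq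
      rcases hq with hq | hq | hq
      · rw [hq, mem_support, c1]; exact hne.symm
      · rw [hq, mem_support, c2]; exact hhp.symm
      · rw [hq, mem_support]
        intro h2
        have : c p = c (h p) := by rw [h2, c2]
        exact hhp (c.injective this).symm
    have h3 : ({g p, h p, p} : Finset α).card = 3 := by
      rw [Finset.card_eq_three]
      exact ⟨g p, h p, p, hne, hgp, hhp, rfl⟩
    rw [← h3]
    exact Finset.card_le_card hs
  exact card_support_eq_three_iff.1 (le_antisymm hle hge)

end Pool.Agent.H60.FCN
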